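import Pool.Agent.Q56.WL.Pairs
import Pool.Agent.Q235.FD.NF
import Pool.Agent.Q235.FD.PlanePencil

/-! Dirichlet series of traces, for all coefficients in windows near powers. -/

set_option autoImplicit false

namespace Pool.Agent.Q190.NP

open Finset Filter
open Pool.Agent.Q56.WL
open Pool.Agent.Q235.FD hiding ForAlmostAll ForAlmostAllFrom Setting exceptions exceptions_mono

/-- **The average traces of families of double planes.** -/
theorem families_near {d m E : ℕ} (hd : 2 ≤ d) (hE : 1 ≤ E) {dm : ℕ} {ex ω : Mon d × (Fin m → Fin (E + 1)) → ℝ}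
    {μ : Mon d × (Fin m → Fin (E + 1)) → Fin dm} (hset : Setting ex ω μ) {δ : ℝ} (hδ : 0 < δ) (A V B : ℕ) :
    ForAlmostAll ex ω μ A V (fun (θ : Weights B) x n => ∀ w ∈ θ.W x,
      |∑ p ∈ primesTo x, w p * Real.log p * (familyTrace d p n / p - 1)| ≤ (x : ℝ) ^ (1 / 2 + δ)) := by
  classical
  have hd0 : (2 : ℝ) ≤ d := by exact_mod_cast hd
  have : Nonempty (Mon d × (Fin m → Fin (E + 1))) := ⟨(monOf d (2 * d) 0 (by omega) (by omega), fun _ => 0)⟩
  have key := rough_near (L := Mon d × (Fin m → Fin (E + 1))) hset hδ A V B 0 (τ := Unit) (fun _ => {()}) (fun x _ => by simp)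
    (fun _ p n => familyTrace d p n / p - 1)
    (fun _ p n hp => by
      have : Fact p.Prime := ⟨hp⟩
      beta_reduce
      unfold familyTrace
      rw [familyPoints_mod]) (C := 2 * d) (by linarith) (by
      intro _ p n hp
      have : Fact p.Prime := ⟨hp⟩
      have hp0 : (0 : ℝ) < p := by exact_mod_cast hp.pos
      by_cases h2 : p = 2
      · subst h2
        rw [familyTrace_two, abs_zero]
        positivity
      · rw [familyTrace_eq h2, abs_div, abs_of_pos (show (0 : ℝ) < (p : ℝ) ^ m * p by positivity), div_le_iff₀ (by positivity)]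
        refine (familySum_bound hd h2 _).trans (le_of_eq ?_)
        ring) (by
      intro _ p hp
      have : Fact p.Prime := ⟨hp⟩
      by_cases h2 : p = 2
      · subst h2
        have e : (fun n : Mon d × (Fin m → Fin (E + 1)) → ℕ => familyTrace d 2 n / ((2 : ℕ) : ℝ) - 1) = fun _ => 0 := funext fun n => familyTrace_two n
        beta_reduce
        rw [e, avg_const]
        norm_num
      · have e : (fun n : Mon d × (Fin m → Fin (E + 1)) → ℕ => familyTrace d p n / p - 1) =
            fun n => familySum (fun l => (n l : ZMod p)) / ((p : ℝ) ^ m * p) :=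
          funext fun n => familyTrace_eq h2 n
        beta_reduce
        rw [e, avg_zmod (fun v => familySum v / ((p : ℝ) ^ m * p)), ← sum_div, (familySum_moments hd hE h2).1]
        simp) (by
      intro _ p hp
      have : Fact p.Prime := ⟨hp⟩
      have hp0 : (0 : ℝ) < p := by exact_mod_cast hp.pos
      have hp1 : (1 : ℝ) ≤ p := by exact_mod_cast hp.one_lt.le
      by_cases h2 : p = 2
      · subst h2
        have e : (fun n : Mon d × (Fin m → Fin (E + 1)) → ℕ => (familyTrace d 2 n / ((2 : ℕ) : ℝ) - 1) ^ 2) = fun _ => 0 := funext fun n => by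
          rw [familyTrace_two]; norm_num
        beta_reduce
        rw [e, avg_const]
        · positivity
        all_goals norm_num
      · have e : (fun n : Mon d × (Fin m → Fin (E + 1)) → ℕ => (familyTrace d p n / p - 1) ^ 2) =
            fun n => (familySum (fun l => (n l : ZMod p)) / ((p : ℝ) ^ m * p)) ^ 2 :=
          funext fun n => by rw [familyTrace_eq h2 n]
        beta_reduce
        rw [e, avg_zmod (fun v => (familySum v / ((p : ℝ) ^ m * p)) ^ 2)]
        simp only [div_pow]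
        rw [← sum_div, div_div, div_le_iff₀ (by positivity)]
        refine (familySum_moments hd hE h2).2.trans ?_
        have h3 : (p : ℝ) ^ m * ((p : ℝ) ^ 2 + p) ≤ 2 * d * ((p : ℝ) ^ m * p) ^ 2 := by
          have h4 : (1 : ℝ) ≤ (p : ℝ) ^ m := one_le_pow₀ hp1
          have h5 : (p : ℝ) ^ 2 + p ≤ 2 * (p : ℝ) ^ 2 := by nlinarith
          have h6 : (0 : ℝ) < (p : ℝ) ^ m := by positivity
          calc (p : ℝ) ^ m * ((p : ℝ) ^ 2 + p) ≤ (p : ℝ) ^ m * (2 * (p : ℝ) ^ 2) := mul_le_mul_of_nonneg_left h5 h6.le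
            _ = 2 * 1 * ((p : ℝ) ^ m * (p : ℝ) ^ 2) := by ring
            _ ≤ 2 * d * (((p : ℝ) ^ m) * ((p : ℝ) ^ m * (p : ℝ) ^ 2)) := by
                apply mul_le_mul (by linarith) _ (by positivity) (by positivity)
                exact le_mul_of_one_le_left (by positivity) h4
            _ = _ := by ring
        calc ((p : ℝ) ^ m * ((p : ℝ) ^ 2 + p)) * (p : ℝ) ^ Fintype.card (Mon d × (Fin m → Fin (E + 1))) ≤
              2 * d * ((p : ℝ) ^ m * p) ^ 2 * (p : ℝ) ^ Fintype.card (Mon d × (Fin m → Fin (E + 1))) :=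
              mul_le_mul_of_nonneg_right h3 (by positivity)
          _ = _ := by ring)
  refine ForAlmostAll.mono key 0 ?_
  intro θ x n _ h w hw
  exact h w hw () (mem_singleton_self _)

/-- **The Dirichlet series of the average traces.** -/
theorem family_series_near {d m E : ℕ} (hd : 2 ≤ d) (hE : 1 ≤ E) {dm : ℕ} {ex ω : Mon d × (Fin m → Fin (E + 1)) → ℝ}
    {μ : Mon d × (Fin m → Fin (E + 1)) → Fin dm} (hset : Setting ex ω μ) {δ : ℝ} (hδ : 0 < δ) (A V B : ℕ) :
    ForAlmostAllFrom ex ω μ A V (fun (θ : Weights B) y x n => ∀ w ∈ θ.W y, ∀ z : ℂ, 1 / 2 + δ ≤ z.re →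
      ‖primeSum y x (fun p => ((w p * Real.log p * (familyTrace d p n / p - 1) : ℝ) : ℂ) * (p : ℂ) ^ (-z))‖ ≤
        (1 + ‖z‖) * (y : ℝ) ^ (-(δ / 4))) := by
  obtain ⟨y₁, hy₁⟩ := half_plane hδ
  refine (families_near hd hE hset (show 0 < δ / 2 by positivity) A V B).from' y₁ ?_
  intro θ y hy
  refine ⟨constWeights θ y, fun x n hx h w hw z hz => ?_⟩
  have hw' : ∀ t, y ≤ t → w ∈ (constWeights θ y).W t := by
    intro t ht
    show w ∈ if y ≤ t then θ.W y else ∅
    rw [if_pos ht]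
    exact hw
  exact hy₁ y x hy hx (fun p => w p * Real.log p * (familyTrace d p n / p - 1)) (fun t ht htx => h t ht htx w (hw' t ht)) z hz

section

variable {s : ℕ} {D : Fin s → ℕ}

/-- **The Dirichlet series of the mixed moments.** -/
theorem joint_series_near (hs : 1 ≤ s) (hD : ∀ i, Odd (D i)) {dm : ℕ} {ex ω : (Σ i, Fin (D i)) → ℝ}
    {μ : (Σ i, Fin (D i)) → Fin dm} (hset : Setting ex ω μ) {δ : ℝ} (hδ : 0 < δ) (A V B : ℕ) :
    ForAlmostAllFrom ex ω μ A V (fun (θ : Weights B) y x m => ∀ w ∈ θ.W y, ∀ z : ℂ, 1 / 2 + δ ≤ z.re →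
      ‖primeSum y x (fun p => ((w p * Real.log p * jbad p m : ℝ) : ℂ) * (p : ℂ) ^ (-z))‖ ≤ (1 + ‖z‖) * (y : ℝ) ^ (-(δ / 4)) ∧
      ∀ k : Fin s → ℕ, (∀ i, k i ≤ D i) → ‖primeSum y x (fun p => ((w p * Real.log p * jpow k p m : ℝ) : ℂ) * (p : ℂ) ^ (-z))‖ ≤
        (1 + ‖z‖) * (y : ℝ) ^ (-(δ / 4))) := by
  obtain ⟨y₁, hy₁⟩ := half_plane hδ
  refine (wjoint_near (D := D) hs hD hset (show 0 < δ / 2 by positivity) A V B).from' y₁ ?_
  intro θ y hy
  refine ⟨constWeights θ y, fun x m hx h w hw z hz => ?_⟩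
  have hw' : ∀ t, y ≤ t → w ∈ (constWeights θ y).W t := by
    intro t ht
    show w ∈ if y ≤ t then θ.W y else ∅
    rw [if_pos ht]
    exact hw
  refine ⟨?_, fun k hk => ?_⟩
  · exact hy₁ y x hy hx (fun p => w p * Real.log p * jbad p m) (fun t ht htx => (h t ht htx w (hw' t ht)).1) z hz
  · exact hy₁ y x hy hx (fun p => w p * Real.log p * jpow k p m) (fun t ht htx => (h t ht htx w (hw' t ht)).2 k hk) z hz

/-- **The L-functions of all even cohomology groups of products.** -/
theorem prod_series_near (hs : 1 ≤ s) (hD : ∀ i, Odd (D i)) (r : ℕ) {dm : ℕ} {ex ω : (Σ i, Fin (D i)) → ℝ}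
    {μ : (Σ i, Fin (D i)) → Fin dm} (hset : Setting ex ω μ) {δ : ℝ} (hδ : 0 < δ) (A V B : ℕ) :
    ForAlmostAllFrom ex ω μ A V (fun (θ : Weights B) y x m => ∀ w ∈ θ.W y, ∀ i : Fin r → Fin s,
      (∀ a, (univ.filter (fun k => i k = a)).card ≤ D a) → ∀ j : ℕ, ∀ z : ℂ, j + 1 / 2 + δ ≤ z.re →
      ‖prodSeries j y x m i w z‖ ≤ 3 ^ r * (1 + j + ‖z‖) * (y : ℝ) ^ (-(δ / 4))) := by
  classical
  refine (joint_series_near (D := D) hs hD hset hδ A V B).mono ?_
  intro θ y x m hx hm w hw i hi j z hz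
  have h1 := (hm w hw (z - j) (by rw [Complex.sub_re, Complex.natCast_re]; linarith)).2
  obtain ⟨T, hT⟩ : ∃ T : Finset (Fin r → Fin 3), T = univ.filter (fun e : Fin r → Fin 3 => ∑ k, (e k : ℕ) = 2 * j) := ⟨_, rfl⟩
  have e : prodSeries j y x m i w z = ∑ e ∈ T, primeSum y x (fun p => ((w p * Real.log p * jpow (mult i e) p m : ℝ) : ℂ) *
      (p : ℂ) ^ (-(z - j))) := by
    unfold prodSeries primeSum
    rw [sum_comm]
    refine sum_congr rfl fun p hp => ?_
    beta_reduce
    have hpp := (mem_filter.1 hp).2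
    by_cases hgood : AllGood p m
    · rw [if_pos hgood, prodTrace_eq hpp m i hgood, ← hT]
      have hpc : ((p : ℕ) : ℂ) ≠ 0 := by exact_mod_cast hpp.ne_zero
      have e4 : ((p : ℕ) : ℂ) ^ (-(z - j)) = (p : ℂ) ^ (-z) * (p : ℂ) ^ j := by
        rw [show -(z - j) = -z + j by ring, Complex.cpow_add _ _ hpc, Complex.cpow_natCast]
      rw [e4, ← sum_mul]
      push_cast
      rw [← mul_sum]
      ring
    · rw [if_neg hgood]
      symm
      apply sum_eq_zero
      intro e _
      unfold jpow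
      rw [if_neg hgood]
      simp
  rw [e]
  have hcard : (T.card : ℝ) ≤ 3 ^ r := by
    have : T.card ≤ 3 ^ r := by
      rw [hT]
      refine (card_filter_le _ _).trans ?_
      rw [card_univ, Fintype.card_fun, Fintype.card_fin, Fintype.card_fin]
    exact_mod_cast this
  have hnorm : 1 + ‖z - j‖ ≤ 1 + j + ‖z‖ := by
    have := norm_sub_le z (j : ℂ)
    rw [Complex.norm_natCast] at this
    linarith
  have hk : ∀ e : Fin r → Fin 3, ∀ a, mult i e a ≤ D a := by
    intro e a
    refine le_trans (card_le_card ?_) (hi a)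
    intro k hk
    rw [mem_filter] at hk ⊢
    exact ⟨hk.1, hk.2.2⟩
  calc _ ≤ ∑ e ∈ T, (1 + j + ‖z‖) * (y : ℝ) ^ (-(δ / 4)) := by
        refine (norm_sum_le _ _).trans (sum_le_sum fun e _ => (h1 _ (hk e)).trans ?_)
        exact mul_le_mul_of_nonneg_right hnorm (by positivity)
    _ = T.card * ((1 + j + ‖z‖) * (y : ℝ) ^ (-(δ / 4))) := by rw [sum_const, nsmul_eq_mul]
    _ ≤ 3 ^ r * ((1 + j + ‖z‖) * (y : ℝ) ^ (-(δ / 4))) := mul_le_mul_of_nonneg_right hcard (by positivity)
    _ = _ := by ring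

end

end Pool.Agent.Q190.NP
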